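import Pool.Agent.R326.DArcais6

/-!
# D'Arcais polynomials at `i t`

`P_n (i t) ≠ 0` for every integer `t` that is not a multiple of `18`, and more generally for
every real `t` such that `t²` is an integer congruent to `1` or `2` modulo `4`, to `1` modulo `3`
or to `9` modulo `27`.
-/

set_option autoImplicit false

namespace Pool.Agent.Results.MP_d73f62_nt.SquareRoots

open Polynomial

/-- The D'Arcais polynomials: `P 0 = 1` and
`P (n + 1) = x / (n + 1) * ∑_{k = 0}^{n} σ(k + 1) P (n - k)`. -/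
noncomputable def P : ℕ → ℚ[X]
  | 0 => 1
  | n + 1 => C (1 / ((n : ℚ) + 1)) * X * ∑ k : Fin (n + 1),
      C (ArithmeticFunction.sigma 1 ((k : ℕ) + 1) : ℚ) * P (n - k)

lemma aeval_P (x : ℂ) (n : ℕ) :
    (n.factorial : ℂ) * aeval x (P n) = Pool.Agent.R326.av x n := by
  induction n using Nat.strong_induction_on with
  | _ n ih =>
    cases n with
    | zero => simp [P, Pool.Agent.R326.av_zero]
    | succ n =>
      have hn : ((n : ℂ) + 1) ≠ 0 := by exact_mod_cast Nat.succ_ne_zero n
      rw [Pool.Agent.R326.av_succ, P, Finset.sum_range (fun k =>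
        (ArithmeticFunction.sigma 1 (k + 1) : ℂ) * (n.descFactorial k : ℂ) *
          Pool.Agent.R326.av x (n - k))]
      simp only [map_mul, map_sum, aeval_C, aeval_X, map_div₀, map_one, map_add, map_natCast]
      rw [Nat.factorial_succ]
      push_cast
      have h1 : ((n : ℂ) + 1) * (n.factorial : ℂ) * (1 / ((n : ℂ) + 1) * x *
          ∑ k : Fin (n + 1), (ArithmeticFunction.sigma 1 ((k : ℕ) + 1) : ℂ) *
            aeval x (P (n - k))) =
          x * ∑ k : Fin (n + 1), (n.factorial : ℂ) *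
            ((ArithmeticFunction.sigma 1 ((k : ℕ) + 1) : ℂ) * aeval x (P (n - k))) := by
        rw [← Finset.mul_sum]
        field_simp
      rw [h1]
      congr 1
      apply Finset.sum_congr rfl
      intro k _
      have hk : (k : ℕ) ≤ n := by have := k.2; omega
      rw [← ih (n - k) (by omega)]
      have h2 := Nat.factorial_mul_descFactorial hk
      have h3 : (n.factorial : ℂ) = ((n - k).factorial : ℂ) * (n.descFactorial k : ℂ) := by
        rw [← h2]; push_cast; ring
      rw [h3]
      ring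

theorem result :
    (∀ (n d : ℕ) (t : ℝ), t ^ 2 = d → (d % 4 = 1 ∨ d % 4 = 2 ∨ d % 3 = 1 ∨ d % 27 = 9) →
      aeval (Complex.I * (t : ℂ)) (P n) ≠ 0) ∧
    (∀ (n : ℕ) (t : ℤ), ¬ (18 : ℤ) ∣ t → aeval (Complex.I * (t : ℂ)) (P n) ≠ 0) := by
  have key : ∀ (n d : ℕ) (x : ℂ), x ^ 2 = -(d : ℂ) →
      (d % 4 = 1 ∨ d % 4 = 2 ∨ d % 3 = 1 ∨ d % 27 = 9) → aeval x (P n) ≠ 0 := by
    intro n d x hx hd h
    have h1 := Pool.Agent.R326.av_ne_zero hd hx n
    rw [← aeval_P, h, mul_zero] at h1
    exact h1 rfl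
  constructor
  · intro n d t ht hd
    apply key n d _ _ hd
    rw [mul_pow, Complex.I_sq, ← Complex.ofReal_pow, ht]
    push_cast
    ring
  · intro n t ht
    apply key n (t.natAbs ^ 2)
    · rw [mul_pow, Complex.I_sq]
      have : ((t.natAbs ^ 2 : ℕ) : ℤ) = t ^ 2 := by
        push_cast
        exact sq_abs t
      have h2 : ((t.natAbs ^ 2 : ℕ) : ℂ) = (t : ℂ) ^ 2 := by
        have h3 := congrArg (Int.cast : ℤ → ℂ) this
        rw [Int.cast_natCast, Int.cast_pow] at h3
        exact h3
      rw [h2]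
      ring
    · set m := t.natAbs with hm
      have hm18 : ¬ 18 ∣ m := fun h => ht (Int.natCast_dvd.2 h)
      rcases Nat.even_or_odd' m with ⟨a, ha | ha⟩
      · have h3 : m % 3 ≠ 0 ∨ m % 9 = 3 ∨ m % 9 = 6 := by omega
        rcases h3 with h3 | h3 | h3
        · right; right; left
          rw [pow_two, Nat.mul_mod]
          have h4 : m % 3 = 1 ∨ m % 3 = 2 := by omega
          rcases h4 with h4 | h4 <;> rw [h4]
        · right; right; right
          obtain ⟨b, hb⟩ : ∃ b, m = 9 * b + 3 := ⟨m / 9, by omega⟩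
          rw [hb, show (9 * b + 3) ^ 2 = 27 * (3 * b ^ 2 + 2 * b) + 9 by ring]
          omega
        · right; right; right
          obtain ⟨b, hb⟩ : ∃ b, m = 9 * b + 6 := ⟨m / 9, by omega⟩
          rw [hb, show (9 * b + 6) ^ 2 = 27 * (3 * b ^ 2 + 4 * b + 1) + 9 by ring]
          omega
      · left
        rw [ha, show (2 * a + 1) ^ 2 = 4 * (a ^ 2 + a) + 1 by ring]
        omega

end Pool.Agent.Results.MP_d73f62_nt.SquareRoots
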